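import Pool.Agent.MWGX.StmtsA

/-!
# Row LBW of the table mwgx: labels modulo `δ` are kept
-/

set_option autoImplicit false

namespace Pool.Agent.MWGX.H43

open Pool.Agent.Helper14_MV Pool.Agent.Helper2_MV
open Pool.Agent.MWK (pre)
open Pool.Agent.MWGN (nn)
open Pool.Agent.MWGQ (pw Gn E0)
open Pool.Agent.MWGR (X It Dm)

/-- `d` to `0`, `q` to `1`, `s` to `3`, all other letters are deleted -/
def g (d q s : ℕ) (c : ℕ) : List ℕ :=
  if c = d then [0] else if c = q then [1] else if c = s then [3] else []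

theorem gd {d q s : ℕ} : ∀ l : List ℕ, q ∉ l → s ∉ l →
    l.flatMap (g d q s) = List.replicate (l.count d) 0
  | [], _, _ => by simp
  | c :: l, h1, h2 => by
    have h3 : c ≠ q := fun h => h1 (h ▸ List.mem_cons_self)
    have h4 : c ≠ s := fun h => h2 (h ▸ List.mem_cons_self)
    rw [List.flatMap_cons, gd l (fun h => h1 (List.mem_cons_of_mem _ h))
      (fun h => h2 (List.mem_cons_of_mem _ h))]
    by_cases h5 : c = d
    · subst h5
      rw [List.count_cons_self, List.replicate_succ]
      simp [g]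
    · rw [List.count_cons_of_ne h5]
      simp [g, h3, h4, h5]

theorem gq {d q s : ℕ} (hdq : d ≠ q) : ∀ l : List ℕ, d ∉ l → s ∉ l →
    l.flatMap (g d q s) = List.replicate (l.count q) 1
  | [], _, _ => by simp
  | c :: l, h1, h2 => by
    have h3 : c ≠ d := fun h => h1 (h ▸ List.mem_cons_self)
    have h4 : c ≠ s := fun h => h2 (h ▸ List.mem_cons_self)
    rw [List.flatMap_cons, gq hdq l (fun h => h1 (List.mem_cons_of_mem _ h))
      (fun h => h2 (List.mem_cons_of_mem _ h))]
    by_cases h5 : c = q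
    · subst h5
      rw [List.count_cons_self, List.replicate_succ]
      simp [g, h3]
    · rw [List.count_cons_of_ne h5]
      simp [g, h3, h4, h5]

/-- the literal form -/
theorem form {w : List ℕ} {d q s : ℕ} (hdq : d ≠ q) (hds : d ≠ s) (hqs : q ≠ s)
    (hs : w.count s = 1) (hq : 2 ≤ w.count q) (hqs1 : nn w q s = 1)
    (hd : nn w d s = w.count d) : ∃ j e : ℕ, 1 ≤ e ∧
      w.flatMap (g d q s) = X (nn w d q) ++ 1 :: (X j ++ 3 :: List.replicate e 1) := by
  have hsw : s ∈ w := List.count_pos_iff.1 (by omega)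
  obtain ⟨B, hB⟩ := MWK.mem_split hsw
  have hsA : s ∉ pre w s := MWK.not_mem_pre w s
  unfold nn at hqs1 hd
  generalize hA : pre w s = A at hB hsA hqs1 hd
  have hsB : s ∉ B := by
    rw [hB, List.count_append, List.count_cons_self] at hs
    exact List.count_eq_zero.1 (by omega)
  have hdB : d ∉ B := by
    rw [hB, List.count_append, List.count_cons_of_ne (Ne.symm hds)] at hd
    exact List.count_eq_zero.1 (by omega)
  have hqB : 1 ≤ B.count q := by
    rw [hB, List.count_append, List.count_cons_of_ne (Ne.symm hqs)] at hq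
    omega
  have hqA : q ∈ A := List.count_pos_iff.1 (by omega)
  obtain ⟨A2, hA2⟩ := MWK.mem_split hqA
  have hqA1 : q ∉ pre A q := MWK.not_mem_pre A q
  have hnn : nn w d q = (pre A q).count d := by
    unfold nn
    rw [hB, MWK.pre_append_mem hqA]
  generalize hA1 : pre A q = A1 at hA2 hqA1 hnn
  have hqA2 : q ∉ A2 := by
    rw [hA2, List.count_append, List.count_cons_self] at hqs1
    exact List.count_eq_zero.1 (by omega)
  have hsA1 : s ∉ A1 := fun h => hsA (by rw [hA2]; exact List.mem_append_left _ h)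
  have hsA2 : s ∉ A2 := fun h => hsA (by
    rw [hA2]; exact List.mem_append_right _ (List.mem_cons_of_mem _ h))
  refine ⟨A2.count d, B.count q, hqB, ?_⟩
  rw [hnn, hB, hA2]
  simp only [List.flatMap_append, List.flatMap_cons, List.append_assoc]
  rw [gd A1 hqA1 hsA1, gd A2 hqA2 hsA2, gq hdq B hdB hsB]
  simp [g, Ne.symm hdq, Ne.symm hds, Ne.symm hqs]

/-- row LBW -/
theorem lbw (h1 : OxvStmt) (h2 : LbvStmt) : LbwStmt := by
  intro n β δ hG hE hI hD w w' hr d q s hs hq hqs hd hds
  obtain ⟨ho, -⟩ := h1 n β hG hE w w' hr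
  have hqs' : q ≠ s := by
    rintro rfl
    omega
  have hds' : d ≠ s := by
    rintro rfl
    omega
  have hdq' : d ≠ q := by
    rintro rfl
    omega
  have k1 := (ho.c1 s).1 hs
  have k2 := (ho.c2 q).1 hq
  have k3 := (ho.n1 s hs q hqs').1 hqs
  have k4 := (ho.nc s hs d hds').1 hds
  obtain ⟨j, e, he, hf⟩ := form hdq' hds' hqs' hs hq hqs hds
  obtain ⟨j', e', he', hf'⟩ := form hdq' hds' hqs' k1 k2 k3 k4
  have h3 := hr.sub (g d q s)
  rw [hf, hf'] at h3
  exact h2 n β δ hG hI hD _ j e _ j' e' he he' h3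

end Pool.Agent.MWGX.H43
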